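import Mathlib

set_option autoImplicit false

/-!
# Liouville's function on norms from number fields of odd degree
-/

namespace Pool.Agent.OddFields

open Polynomial ArithmeticFunction Module NumberField

/-- Liouville's function of the absolute value of an integer. -/
noncomputable def lam (m : ℤ) : ℤ := liouville m.natAbs

lemma lam_mul (a b : ℤ) : lam (a * b) = lam a * lam b := by
  simp [lam, Int.natAbs_mul, liouville_apply_mul]

lemma lam_cases {a : ℤ} (ha : a ≠ 0) : lam a = 1 ∨ lam a = -1 := by
  have h : a.natAbs ≠ 0 := by simpa using ha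
  rw [lam, liouville_apply h]
  exact neg_one_pow_eq_or ℤ _

lemma lam_neg (a : ℤ) : lam (-a) = lam a := by simp [lam]

lemma lam_one : lam 1 = 1 := by simp [lam, liouville_apply_one]

lemma lam_neg_one : lam (-1) = 1 := by rw [lam_neg, lam_one]

lemma lam_pow (a : ℤ) (k : ℕ) : lam (a ^ k) = lam a ^ k := by
  induction k with
  | zero => simp [lam_one]
  | succ k ih => rw [pow_succ, lam_mul, ih, pow_succ]

lemma lam_two : lam 2 = -1 := by
  have h : (2 : ℤ).natAbs = 2 := rfl
  rw [lam, h, liouville_apply (by norm_num), cardFactors_apply_prime Nat.prime_two]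
  norm_num

lemma lam_mul_self {a : ℤ} (ha : a ≠ 0) : lam a * lam a = 1 := by
  rcases lam_cases ha with h | h <;> simp [h]

variable {K : Type*} [Field K] [NumberField K]

/-- Liouville's function of the norm of an algebraic integer of `K`. -/
noncomputable def S (z : 𝓞 K) : ℤ := lam (Algebra.norm ℤ z)

omit [NumberField K] in
lemma S_mul (a b : 𝓞 K) : S (a * b) = S a * S b := by
  rw [S, S, S, map_mul, lam_mul]

lemma norm_ne_zero {z : 𝓞 K} (hz : z ≠ 0) : Algebra.norm ℤ z ≠ 0 :=
  Algebra.norm_ne_zero_iff.2 hz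

lemma S_cases {z : 𝓞 K} (hz : z ≠ 0) : S z = 1 ∨ S z = -1 := lam_cases (norm_ne_zero hz)

lemma S_int (n : ℤ) : S (n : 𝓞 K) = lam n ^ finrank ℚ K := by
  have h : Algebra.norm ℤ ((n : ℤ) : 𝓞 K) = n ^ finrank ℤ (𝓞 K) := by
    have := Algebra.norm_algebraMap (R := ℤ) (S := 𝓞 K) n
    simpa using this
  rw [S, h, lam_pow, RingOfIntegers.rank]

lemma S_neg_one : S (-1 : 𝓞 K) = 1 := by
  have h := S_int (K := K) (-1)
  rw [lam_neg_one, one_pow] at h
  simpa using h

lemma S_neg (z : 𝓞 K) : S (-z) = S z := by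
  rw [neg_eq_neg_one_mul, S_mul, S_neg_one, one_mul]

lemma S_two (hodd : Odd (finrank ℚ K)) : S (2 : 𝓞 K) = -1 := by
  have h := S_int (K := K) 2
  rw [lam_two, hodd.neg_one_pow] at h
  simpa using h

/-- The characteristic polynomial of an algebraic integer. -/
noncomputable def P (θ : 𝓞 K) : ℤ[X] := LinearMap.charpoly (Algebra.lmul ℤ (𝓞 K) θ)

lemma P_monic (θ : 𝓞 K) : (P θ).Monic := LinearMap.charpoly_monic _

lemma P_natDegree (θ : 𝓞 K) : (P θ).natDegree = finrank ℚ K := by
  rw [P, LinearMap.charpoly_natDegree, RingOfIntegers.rank]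

lemma P_eval (θ : 𝓞 K) (n : ℤ) : (P θ).eval n = Algebra.norm ℤ ((n : 𝓞 K) - θ) := by
  rw [P, LinearMap.eval_charpoly, Algebra.norm_apply]
  congr 1
  rw [map_sub]
  congr 1
  ext z
  simp

lemma P_aeval (θ : 𝓞 K) : aeval θ (P θ) = 0 := by
  have h := LinearMap.aeval_self_charpoly (Algebra.lmul ℤ (𝓞 K) θ)
  have h2 : Algebra.lmul ℤ (𝓞 K) (aeval θ (P θ)) = 0 := by
    rw [← h, P, ← aeval_algHom_apply]
  have h3 := congrArg (fun f : End ℤ (𝓞 K) => f 1) h2
  simpa using h3

lemma P_irreducible (θ : 𝓞 K) (hθ : IntermediateField.adjoin ℚ {(θ : K)} = ⊤) :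
    Irreducible (P θ) := by
  have hint : IsIntegral ℤ (θ : K) := θ.isIntegral_coe
  have h1 : minpoly ℚ (θ : K) = (minpoly ℤ (θ : K)).map (algebraMap ℤ ℚ) :=
    minpoly.isIntegrallyClosed_eq_field_fractions' ℚ hint
  have h2 : (minpoly ℚ (θ : K)).natDegree = finrank ℚ K := by
    rw [← IntermediateField.adjoin.finrank (hint.tower_top : IsIntegral ℚ (θ : K)), hθ]
    exact IntermediateField.finrank_top'
  have h3 : (minpoly ℤ (θ : K)).natDegree = finrank ℚ K := by
    rw [← h2, h1, (minpoly.monic hint).natDegree_map]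
  have h4 : aeval (θ : K) (P θ) = 0 := by
    have := P_aeval θ
    have h5 := aeval_algebraMap_apply K θ (P θ)
    rw [this, _root_.map_zero] at h5
    exact h5
  have h5 : minpoly ℤ (θ : K) ∣ P θ := minpoly.isIntegrallyClosed_dvd hint h4
  have h6 : minpoly ℤ (θ : K) = P θ := by
    refine (eq_of_monic_of_dvd_of_natDegree_le (minpoly.monic hint) (P_monic θ) h5 ?_).symm
    rw [h3, P_natDegree]
  rw [← h6]
  exact minpoly.irreducible hint

lemma lam_P_eval (θ : 𝓞 K) (n : ℤ) : lam ((P θ).eval n) = S ((n : 𝓞 K) - θ) := by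
  rw [P_eval, S]

/-- If `y` generates `K`, has degree at most two over `E` and `[K : ℚ]` is odd, then `E = K`. -/
lemma eq_top_of_quadratic (hodd : Odd (finrank ℚ K)) (E : IntermediateField ℚ K) (y : K)
    (hy : IntermediateField.adjoin ℚ {y} = ⊤) (b' c' : K) (hb : b' ∈ E) (hc : c' ∈ E)
    (h : y ^ 2 + b' * y + c' = 0) : E = ⊤ := by
  set b : E := ⟨b', hb⟩ with hbdef
  set c : E := ⟨c', hc⟩ with hcdef
  have h : y ^ 2 + (b : K) * y + (c : K) = 0 := h
  have hyint : IsIntegral E y := (Algebra.IsIntegral.isIntegral (R := ℚ) y).tower_top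
  have htop : IntermediateField.adjoin E {y} = ⊤ := by
    have h1 : (IntermediateField.adjoin ℚ {y}) ≤
        (IntermediateField.adjoin E {y}).restrictScalars ℚ := by
      rw [IntermediateField.adjoin_le_iff]
      simp only [Set.singleton_subset_iff]
      exact IntermediateField.mem_adjoin_simple_self E y
    rw [hy] at h1
    rw [eq_top_iff]
    intro z _
    exact h1 (IntermediateField.mem_top)
  have hfin : finrank E K = (minpoly E y).natDegree := by
    rw [← IntermediateField.adjoin.finrank hyint, htop]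
    exact IntermediateField.finrank_top'.symm
  have hdeg : (minpoly E y).natDegree ≤ 2 := by
    have hm : (X ^ 2 + C b * X + C c : E[X]).Monic := by monicity!
    have ha : aeval y (X ^ 2 + C b * X + C c : E[X]) = 0 := by
      simpa using h
    have hd : (X ^ 2 + C b * X + C c : E[X]).natDegree = 2 := by compute_degree!
    have := minpoly.min E y hm ha
    have h2 := natDegree_le_natDegree this
    rwa [hd] at h2
  have hmul : finrank ℚ E * finrank E K = finrank ℚ K := finrank_mul_finrank ℚ E K
  have hpos : 0 < finrank E K := finrank_pos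
  have h1 : finrank E K = 1 := by
    rw [hfin] at *
    interval_cases hh : (minpoly E y).natDegree
    · rfl
    · exfalso
      rw [← hmul] at hodd
      exact (Nat.not_even_iff_odd.2 hodd) (even_two.mul_left _)
  rw [h1, mul_one] at hmul
  exact IntermediateField.eq_of_le_of_finrank_eq le_top (by rw [hmul]; exact
    IntermediateField.finrank_top'.symm)

end Pool.Agent.OddFields
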