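import Mathlib
import Pool.Agent.OddFields.Basic

set_option autoImplicit false

/-!
# The three-way alternative
-/

namespace Pool.Agent.OddFields

open Polynomial ArithmeticFunction Module NumberField

/-- Both signs are taken often at infinitely many scales. -/
def Both (F : ℤ[X]) : Prop :=
  ∃ c : ℝ, 0 < c ∧ ∀ X₀ : ℕ, ∃ X ≥ X₀, ∀ e : ℤ, e = 1 ∨ e = -1 →
    c * √(X : ℝ) ≤ (((Finset.Icc (-(X : ℤ)) X).filter
      fun n => liouville (F.eval n).natAbs = e).card : ℝ)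

/-- Witness sets at the scale `N`. -/
def Wit (F : ℤ[X]) (C N : ℕ) : Prop :=
  ∃ T : Finset ℕ, N ≤ 3 * T.card ∧ ∀ e : ℤ, e = 1 ∨ e = -1 →
    ∃ φ : ℕ → ℤ, Set.InjOn φ T ∧ ∀ n ∈ T, |φ n| ≤ C * N ^ 2 ∧ lam (F.eval (φ n)) = e

lemma both_of_wit (F : ℤ[X]) (C : ℕ) (hC : 0 < C) (h : ∀ N₀ : ℕ, ∃ N ≥ N₀, Wit F C N) :
    Both F := by
  refine ⟨1 / (3 * √(C : ℝ)), by positivity, fun X₀ => ?_⟩
  obtain ⟨N, hN, T, hT, hφ⟩ := h X₀
  refine ⟨C * N ^ 2, ?_, fun e he => ?_⟩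
  · nlinarith [sq_nonneg N, Nat.le_self_pow two_ne_zero N, Nat.le_mul_of_pos_left (N ^ 2) hC]
  obtain ⟨φ, hinj, hmem⟩ := hφ e he
  have hcard : T.card ≤ ((Finset.Icc (-((C * N ^ 2 : ℕ) : ℤ)) ((C * N ^ 2 : ℕ) : ℤ)).filter
      fun n => liouville (F.eval n).natAbs = e).card := by
    apply Finset.card_le_card_of_injOn φ _ hinj
    intro n hn
    obtain ⟨h1, h2⟩ := hmem n hn
    rw [abs_le] at h1
    simp only [Finset.coe_filter, Finset.mem_Icc, Set.mem_ofPred_eq]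
    push_cast
    exact ⟨h1, h2⟩
  have hsq : √(((C * N ^ 2 : ℕ) : ℝ)) = √(C : ℝ) * N := by
    push_cast
    rw [Real.sqrt_mul (by positivity), Real.sqrt_sq (by positivity)]
  rw [hsq]
  have hC' : √(C : ℝ) ≠ 0 := by positivity
  have e1 : 1 / (3 * √(C : ℝ)) * (√(C : ℝ) * N) = (N : ℝ) / 3 := by
    field_simp
  rw [e1]
  have h3 : (N : ℝ) ≤ 3 * (T.card : ℝ) := by exact_mod_cast hT
  have h4 : (T.card : ℝ) ≤ (((Finset.Icc (-((C * N ^ 2 : ℕ) : ℤ)) ((C * N ^ 2 : ℕ) : ℤ)).filter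
      fun n => liouville (F.eval n).natAbs = e).card : ℝ) := by exact_mod_cast hcard
  linarith

variable {K : Type*} [Field K] [NumberField K]

lemma wit_of_ne (θ : 𝓞 K) (hθ : ∀ n : ℤ, (n : 𝓞 K) ≠ θ) (C N : ℕ) (hC : 0 < C)
    (h : N ≤ 3 * ((Finset.Icc 1 N).filter fun n : ℕ =>
      S (((n : ℤ) : 𝓞 K) - θ) ≠ S (((-(n : ℤ) : ℤ) : 𝓞 K) - θ)).card) : Wit (P θ) C N := by
  refine ⟨_, h, fun e he => ?_⟩
  refine ⟨fun n => if S (((n : ℤ) : 𝓞 K) - θ) = e then (n : ℤ) else -(n : ℤ), ?_, ?_⟩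
  · intro a ha b hb hab
    simp only at hab
    split_ifs at hab <;> omega
  · intro n hn
    simp only [Finset.mem_filter, Finset.mem_Icc] at hn
    obtain ⟨⟨hn1, hn2⟩, hne⟩ := hn
    constructor
    · have habs : |if S (((n : ℤ) : 𝓞 K) - θ) = e then (n : ℤ) else -(n : ℤ)| = n := by
        split_ifs <;> simp
      rw [habs]
      have h1 : n ≤ C * N ^ 2 := by
        nlinarith [Nat.le_self_pow two_ne_zero N, Nat.le_mul_of_pos_left (N ^ 2) hC]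
      exact_mod_cast h1
    · beta_reduce
      split_ifs with hS
      · rw [lam_P_eval]; exact hS
      · rw [lam_P_eval]
        have hz1 : ((n : ℤ) : 𝓞 K) - θ ≠ 0 := sub_ne_zero.2 (hθ _)
        have hz2 : ((-(n : ℤ) : ℤ) : 𝓞 K) - θ ≠ 0 := sub_ne_zero.2 (hθ _)
        rcases S_cases hz1 with h1 | h1 <;> rcases S_cases hz2 with h2 | h2 <;>
          rcases he with rfl | rfl <;> simp_all

lemma wit_of_eq (θ : 𝓞 K) (M : ℤ) (C N : ℕ) (hC : 2 + M ^ 2 ≤ C) 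
    (h : N ≤ 3 * ((Finset.Icc 1 N).filter fun n : ℕ =>
      S ((((n : ℤ) ^ 2 : ℤ) : 𝓞 K) - θ) = 1 ∧
      S (((2 * (n : ℤ) ^ 2 + M ^ 2 : ℤ) : 𝓞 K) - θ) = -1).card) : Wit (P θ) C N := by
  refine ⟨_, h, fun e he => ?_⟩
  rcases he with rfl | rfl
  · refine ⟨fun n => (n : ℤ) ^ 2, ?_, ?_⟩
    · intro a ha b hb hab
      have h1 : (a : ℤ) ^ 2 = (b : ℤ) ^ 2 := hab
      have h2 : a ^ 2 = b ^ 2 := by exact_mod_cast h1
      exact Nat.pow_left_injective (two_ne_zero) h2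
    · intro n hn
      simp only [Finset.mem_filter, Finset.mem_Icc] at hn
      obtain ⟨⟨hn1, hn2⟩, h1, h2⟩ := hn
      refine ⟨?_, by rw [lam_P_eval]; exact h1⟩
      rw [abs_of_nonneg (by positivity)]
      have h3 : (n : ℤ) ≤ N := by exact_mod_cast hn2
      have h4 : (1 : ℤ) ≤ n := by exact_mod_cast hn1
      nlinarith [sq_nonneg M, mul_self_nonneg (N : ℤ), pow_le_pow_left₀ (by positivity) h3 2]
  · refine ⟨fun n => 2 * (n : ℤ) ^ 2 + M ^ 2, ?_, ?_⟩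
    · intro a ha b hb hab
      have h1 : 2 * (a : ℤ) ^ 2 + M ^ 2 = 2 * (b : ℤ) ^ 2 + M ^ 2 := hab
      have h2 : (a : ℤ) ^ 2 = (b : ℤ) ^ 2 := by linarith
      have h3 : a ^ 2 = b ^ 2 := by exact_mod_cast h2
      exact Nat.pow_left_injective (two_ne_zero) h3
    · intro n hn
      simp only [Finset.mem_filter, Finset.mem_Icc] at hn
      obtain ⟨⟨hn1, hn2⟩, h1, h2⟩ := hn
      refine ⟨?_, by rw [lam_P_eval]; exact h2⟩
      rw [abs_of_nonneg (by positivity)]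
      have h3 : (n : ℤ) ≤ N := by exact_mod_cast hn2
      have h4 : (1 : ℤ) ≤ n := by exact_mod_cast hn1
      have h5 : (n : ℤ) ^ 2 ≤ (N : ℤ) ^ 2 := pow_le_pow_left₀ (by positivity) h3 2
      have h6 : (1 : ℤ) ≤ (N : ℤ) ^ 2 := by nlinarith
      nlinarith [sq_nonneg M]

/-- The three-way alternative at each scale. -/
lemma three_way (hodd : Odd (finrank ℚ K)) (u v : 𝓞 K) (M : ℤ)
    (h : u ^ 2 = 2 * v ^ 2 + (M : 𝓞 K) ^ 2)
    (hu : ∀ n : ℤ, (n : 𝓞 K) ≠ u) (hv : ∀ n : ℤ, (n : 𝓞 K) ≠ v)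
    (C N : ℕ) (hC : 2 + M ^ 2 ≤ C) :
    Wit (P u) C N ∨ Wit (P v) C N ∨ Wit (P (u ^ 2)) C N := by
  have hC0 : 0 < C := by
    have : (0 : ℤ) < C := by nlinarith [sq_nonneg M]
    exact_mod_cast this
  set A := (Finset.Icc 1 N).filter fun n : ℕ =>
      S (((n : ℤ) : 𝓞 K) - u) ≠ S (((-(n : ℤ) : ℤ) : 𝓞 K) - u) with hA
  set B := (Finset.Icc 1 N).filter fun n : ℕ =>
      S (((n : ℤ) : 𝓞 K) - v) ≠ S (((-(n : ℤ) : ℤ) : 𝓞 K) - v) with hB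
  set D := (Finset.Icc 1 N).filter fun n : ℕ =>
      S ((((n : ℤ) ^ 2 : ℤ) : 𝓞 K) - u ^ 2) = 1 ∧
      S (((2 * (n : ℤ) ^ 2 + M ^ 2 : ℤ) : 𝓞 K) - u ^ 2) = -1 with hD
  have hcov : Finset.Icc 1 N ⊆ A ∪ (B ∪ D) := by
    intro n hn
    by_contra hcon
    simp only [Finset.mem_union, not_or, hA, hB, hD, Finset.mem_filter, hn, true_and,
      not_not] at hcon
    obtain ⟨h1, h2, h3⟩ := hcon
    apply h3
    constructor
    · have e1 : (((n : ℤ) ^ 2 : ℤ) : 𝓞 K) - u ^ 2 =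
          -((((n : ℤ) : 𝓞 K) - u) * (((-(n : ℤ) : ℤ) : 𝓞 K) - u)) := by
        push_cast; ring
      rw [e1, S_neg, S_mul, ← h1]
      rcases S_cases (sub_ne_zero.2 (hu n)) with h4 | h4 <;> rw [h4] <;> norm_num
    · have e1 : ((2 * (n : ℤ) ^ 2 + M ^ 2 : ℤ) : 𝓞 K) - u ^ 2 =
          -(2 * ((((n : ℤ) : 𝓞 K) - v) * (((-(n : ℤ) : ℤ) : 𝓞 K) - v))) := by
        rw [h]; push_cast; ring
      rw [e1, S_neg, S_mul, S_mul, S_two hodd, ← h2]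
      rcases S_cases (sub_ne_zero.2 (hv n)) with h4 | h4 <;> rw [h4] <;> norm_num
  have hcard : N ≤ A.card + (B.card + D.card) := by
    calc N = (Finset.Icc 1 N).card := by simp
      _ ≤ (A ∪ (B ∪ D)).card := Finset.card_le_card hcov
      _ ≤ A.card + (B ∪ D).card := Finset.card_union_le _ _
      _ ≤ A.card + (B.card + D.card) := by
          gcongr
          exact Finset.card_union_le _ _
  by_cases hA3 : N ≤ 3 * A.card
  · exact Or.inl (wit_of_ne u hu C N hC0 hA3)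
  by_cases hB3 : N ≤ 3 * B.card
  · exact Or.inr (Or.inl (wit_of_ne v hv C N hC0 hB3))
  · have hD3 : N ≤ 3 * D.card := by omega
    exact Or.inr (Or.inr (wit_of_eq (u ^ 2) M C N hC hD3))

theorem three_both (hodd : Odd (finrank ℚ K)) (u v : 𝓞 K) (M : ℤ)
    (h : u ^ 2 = 2 * v ^ 2 + (M : 𝓞 K) ^ 2)
    (hu : ∀ n : ℤ, (n : 𝓞 K) ≠ u) (hv : ∀ n : ℤ, (n : 𝓞 K) ≠ v) :
    Both (P u) ∨ Both (P v) ∨ Both (P (u ^ 2)) := by
  obtain ⟨C, hC⟩ : ∃ C : ℕ, 2 + M ^ 2 ≤ C := ⟨(2 + M ^ 2).toNat, Int.self_le_toNat _⟩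
  have hC0 : 0 < C := by
    have : (0 : ℤ) < C := by nlinarith [sq_nonneg M]
    exact_mod_cast this
  have key := fun N => three_way hodd u v M h hu hv C N hC
  by_cases h1 : ∀ N₀ : ℕ, ∃ N ≥ N₀, Wit (P u) C N
  · exact Or.inl (both_of_wit _ C hC0 h1)
  by_cases h2 : ∀ N₀ : ℕ, ∃ N ≥ N₀, Wit (P v) C N
  · exact Or.inr (Or.inl (both_of_wit _ C hC0 h2))
  push Not at h1 h2
  obtain ⟨N1, h1⟩ := h1
  obtain ⟨N2, h2⟩ := h2
  refine Or.inr (Or.inr (both_of_wit _ C hC0 fun N₀ => ?_))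
  refine ⟨N₀ + N1 + N2, by omega, ?_⟩
  rcases key (N₀ + N1 + N2) with h3 | h3 | h3
  · exact absurd h3 (h1 _ (by omega))
  · exact absurd h3 (h2 _ (by omega))
  · exact h3

end Pool.Agent.OddFields
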