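import Mathlib
import Pool.Agent.OddFields.Core

set_option autoImplicit false

/-!
# Both signs in every number field of odd degree
-/

namespace Pool.Agent.OddFields

open Polynomial ArithmeticFunction Module NumberField

variable {K : Type*} [Field K] [NumberField K]

lemma not_int_of_top (hd : 1 < finrank ℚ K) (z : K)
    (hz : IntermediateField.adjoin ℚ {z} = ⊤) (q : ℚ) : (q : K) ≠ z := by
  intro h
  have h1 : z ∈ (⊥ : IntermediateField ℚ K) := by
    rw [IntermediateField.mem_bot]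
    exact ⟨q, by rw [← h]; simp⟩
  have h2 : IntermediateField.adjoin ℚ {z} = ⊥ := IntermediateField.adjoin_simple_eq_bot_iff.2 h1
  rw [hz] at h2
  have h3 : finrank ℚ (⊤ : IntermediateField ℚ K) = 1 := by
    rw [h2]; exact IntermediateField.finrank_bot
  rw [IntermediateField.finrank_top'] at h3
  omega

/-- The number `x ^ 2 - 2` is nonzero in a field of odd degree. -/
lemma sq_ne_two (hodd : Odd (finrank ℚ K)) (x : K) : x ^ 2 - 2 ≠ 0 := by
  intro h
  have hx : x ^ 2 = 2 := by linear_combination h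
  have h1 := congrArg (Algebra.norm ℚ) hx
  rw [map_pow] at h1
  have h2 : Algebra.norm ℚ (2 : K) = 2 ^ finrank ℚ K := by
    have := Algebra.norm_algebraMap (R := ℚ) (S := K) 2
    simpa using this
  rw [h2] at h1
  obtain ⟨k, hk⟩ := hodd
  rw [hk] at h1
  have h3 : (Algebra.norm ℚ x / 2 ^ k) ^ 2 = 2 := by
    rw [div_pow, h1]
    have : (2 : ℚ) ^ (2 * k + 1) = 2 * (2 ^ k) ^ 2 := by ring
    rw [this]
    field_simp
  have h4 : Irrational (√2) := irrational_sqrt_two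
  apply h4
  refine ⟨|Algebra.norm ℚ x / 2 ^ k|, ?_⟩
  rw [eq_comm, Real.sqrt_eq_iff_mul_self_eq (by norm_num) (by positivity)]
  rw [← sq]
  have h5 : |Algebra.norm ℚ x / 2 ^ k| ^ 2 = (2 : ℚ) := by rw [sq_abs, h3]
  exact_mod_cast h5.symm

/-- The three generators of `K` attached to a generator `x`. -/
theorem tops (hodd : Odd (finrank ℚ K)) (hd : 1 < finrank ℚ K) (x : K)
    (hx : IntermediateField.adjoin ℚ {x} = ⊤) :
    IntermediateField.adjoin ℚ {(x ^ 2 + 2) / (x ^ 2 - 2)} = ⊤ ∧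
    IntermediateField.adjoin ℚ {2 * x / (x ^ 2 - 2)} = ⊤ ∧
    IntermediateField.adjoin ℚ {((x ^ 2 + 2) / (x ^ 2 - 2)) ^ 2} = ⊤ := by
  have hne := sq_ne_two hodd x
  have hx0 : x ≠ 0 := by
    have := not_int_of_top hd x hx 0
    intro h
    apply this
    rw [h]; simp
  have t1 : IntermediateField.adjoin ℚ {(x ^ 2 + 2) / (x ^ 2 - 2)} = ⊤ := by
    set g := (x ^ 2 + 2) / (x ^ 2 - 2) with hg
    have hgm : g ∈ IntermediateField.adjoin ℚ {g} := IntermediateField.mem_adjoin_simple_self ℚ g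
    have hg1 : g - 1 ≠ 0 := by
      have : g - 1 = 4 / (x ^ 2 - 2) := by rw [hg]; field_simp; ring
      rw [this]; exact div_ne_zero (by norm_num) hne
    have h2m : (2 : K) ∈ IntermediateField.adjoin ℚ {g} := ofNat_mem _ 2
    refine eq_top_of_quadratic hodd _ x hx 0 (-(2 * (g + 1) / (g - 1))) (zero_mem _)
      (neg_mem (div_mem (mul_mem h2m (add_mem hgm (one_mem _))) (sub_mem hgm (one_mem _)))) ?_
    have hx2 : x ^ 2 = 2 * (g + 1) / (g - 1) := by
      rw [eq_div_iff hg1, hg]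
      field_simp
      ring
    rw [hx2]
    ring
  have t2 : IntermediateField.adjoin ℚ {2 * x / (x ^ 2 - 2)} = ⊤ := by
    set g := 2 * x / (x ^ 2 - 2) with hg
    have hgm : g ∈ IntermediateField.adjoin ℚ {g} := IntermediateField.mem_adjoin_simple_self ℚ g
    have hg0 : g ≠ 0 := by
      rw [hg]; exact div_ne_zero (mul_ne_zero (by norm_num) hx0) hne
    have h2m : (2 : K) ∈ IntermediateField.adjoin ℚ {g} := ofNat_mem _ 2
    refine eq_top_of_quadratic hodd _ x hx (-(2 / g)) (-2) (neg_mem (div_mem h2m hgm))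
      (neg_mem h2m) ?_
    rw [hg]
    field_simp
    ring
  have t3 : IntermediateField.adjoin ℚ {((x ^ 2 + 2) / (x ^ 2 - 2)) ^ 2} = ⊤ := by
    set g := (x ^ 2 + 2) / (x ^ 2 - 2) with hg
    have hgm : g ^ 2 ∈ IntermediateField.adjoin ℚ {g ^ 2} :=
      IntermediateField.mem_adjoin_simple_self ℚ _
    refine eq_top_of_quadratic hodd _ g t1 0 (-(g ^ 2)) (zero_mem _) (neg_mem hgm) ?_
    ring
  exact ⟨t1, t2, t3⟩

lemma exists_common_multiple (a b : K) :
    ∃ M : ℤ, 0 < M ∧ IsIntegral ℤ ((M : K) * a) ∧ IsIntegral ℤ ((M : K) * b) := by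
  have ha : IsAlgebraic ℤ a := (IsFractionRing.isAlgebraic_iff ℤ ℚ K).2
    (Algebra.IsAlgebraic.isAlgebraic a)
  have hb : IsAlgebraic ℤ b := (IsFractionRing.isAlgebraic_iff ℤ ℚ K).2
    (Algebra.IsAlgebraic.isAlgebraic b)
  obtain ⟨m, hm, h1⟩ := ha.exists_integral_multiple
  obtain ⟨n, hn, h2⟩ := hb.exists_integral_multiple
  have hi : ∀ k : ℤ, IsIntegral ℤ (k : K) := fun k => by
    have := isIntegral_algebraMap (R := ℤ) (A := K) (x := k)
    simpa using this
  refine ⟨(m * n) ^ 2, by positivity, ?_, ?_⟩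
  · have : (((m * n) ^ 2 : ℤ) : K) * a = ((m * n ^ 2 : ℤ) : K) * (m • a) := by
      rw [zsmul_eq_mul]; push_cast; ring
    rw [this]
    exact (hi _).mul h1
  · have : (((m * n) ^ 2 : ℤ) : K) * b = ((m ^ 2 * n : ℤ) : K) * (n • b) := by
      rw [zsmul_eq_mul]; push_cast; ring
    rw [this]
    exact (hi _).mul h2

lemma adjoin_mul_eq_top {M : ℤ} (hM : 0 < M) {z : K}
    (hz : IntermediateField.adjoin ℚ {z} = ⊤) :
    IntermediateField.adjoin ℚ {(M : K) * z} = ⊤ := by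
  rw [eq_top_iff, ← hz, IntermediateField.adjoin_simple_le_iff]
  have hm : (M : K) * z ∈ IntermediateField.adjoin ℚ {(M : K) * z} :=
    IntermediateField.mem_adjoin_simple_self ℚ _
  have hM0 : (M : K) ≠ 0 := by exact_mod_cast hM.ne'
  have hMm : (M : K) ∈ IntermediateField.adjoin ℚ {(M : K) * z} := intCast_mem _ M
  have : z = ((M : K) * z) / (M : K) := by field_simp
  rw [this]
  have h2 := div_mem hm hMm
  have e3 : (M : K) * ((M : K) * z / (M : K)) = (M : K) * z := by field_simp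
  rw [e3]
  exact h2

theorem main (hodd : Odd (finrank ℚ K)) (hd : 1 < finrank ℚ K) (x : K)
    (hx : IntermediateField.adjoin ℚ {x} = ⊤) :
    ∃ θ ∈ ({(x ^ 2 + 2) / (x ^ 2 - 2), 2 * x / (x ^ 2 - 2),
        ((x ^ 2 + 2) / (x ^ 2 - 2)) ^ 2} : Set K),
      IntermediateField.adjoin ℚ {θ} = ⊤ ∧
      ∃ M : ℤ, 0 < M ∧ ∃ F : ℤ[X], F.Monic ∧ Irreducible F ∧ F.natDegree = finrank ℚ K ∧
        aeval ((M : K) * θ) F = 0 ∧ Both F := by
  obtain ⟨t1, t2, t3⟩ := tops hodd hd x hx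
  obtain ⟨M, hM, i1, i2⟩ := exists_common_multiple ((x ^ 2 + 2) / (x ^ 2 - 2))
    (2 * x / (x ^ 2 - 2))
  have hne := sq_ne_two hodd x
  set u : 𝓞 K := ⟨_, i1⟩ with hu
  set v : 𝓞 K := ⟨_, i2⟩ with hv
  have cu : (u : K) = (M : K) * ((x ^ 2 + 2) / (x ^ 2 - 2)) := rfl
  have cv : (v : K) = (M : K) * (2 * x / (x ^ 2 - 2)) := rfl
  have h : u ^ 2 = 2 * v ^ 2 + (M : 𝓞 K) ^ 2 := by
    apply FaithfulSMul.algebraMap_injective (𝓞 K) K
    rw [map_add, map_mul, map_pow, map_pow, map_pow, map_ofNat, map_intCast]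
    have cu' : algebraMap (𝓞 K) K u = (M : K) * ((x ^ 2 + 2) / (x ^ 2 - 2)) := rfl
    have cv' : algebraMap (𝓞 K) K v = (M : K) * (2 * x / (x ^ 2 - 2)) := rfl
    rw [cu', cv']
    field_simp
    ring
  have T1 : IntermediateField.adjoin ℚ {(u : K)} = ⊤ := by
    rw [cu]; exact adjoin_mul_eq_top hM t1
  have T2 : IntermediateField.adjoin ℚ {(v : K)} = ⊤ := by
    rw [cv]; exact adjoin_mul_eq_top hM t2
  have cu2 : ((u ^ 2 : 𝓞 K) : K) = ((M ^ 2 : ℤ) : K) * ((x ^ 2 + 2) / (x ^ 2 - 2)) ^ 2 := by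
    have cu' : algebraMap (𝓞 K) K u = (M : K) * ((x ^ 2 + 2) / (x ^ 2 - 2)) := rfl
    have e1 : ((u ^ 2 : 𝓞 K) : K) = algebraMap (𝓞 K) K (u ^ 2) := rfl
    rw [e1, map_pow, cu']; push_cast; ring
  have T3 : IntermediateField.adjoin ℚ {((u ^ 2 : 𝓞 K) : K)} = ⊤ := by
    rw [cu2]; exact adjoin_mul_eq_top (by positivity) t3
  have hun : ∀ n : ℤ, (n : 𝓞 K) ≠ u := fun n hn => by
    apply not_int_of_top hd (u : K) T1 n
    rw [← hn]; simp
  have hvn : ∀ n : ℤ, (n : 𝓞 K) ≠ v := fun n hn => by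
    apply not_int_of_top hd (v : K) T2 n
    rw [← hn]; simp
  have aev : ∀ w : 𝓞 K, aeval (w : K) (P w) = 0 := fun w => by
    have h5 := aeval_algebraMap_apply K w (P w)
    rw [P_aeval w, _root_.map_zero] at h5
    exact h5
  rcases three_both hodd u v M h hun hvn with h1 | h1 | h1
  · refine ⟨_, by simp, t1, M, hM, P u, P_monic u, P_irreducible u T1, P_natDegree u, ?_, h1⟩
    rw [← cu]; exact aev u
  · refine ⟨_, by simp, t2, M, hM, P v, P_monic v, P_irreducible v T2, P_natDegree v, ?_, h1⟩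
    rw [← cv]; exact aev v
  · refine ⟨_, by simp, t3, M ^ 2, by positivity, P (u ^ 2), P_monic _, P_irreducible _ T3,
      P_natDegree _, ?_, h1⟩
    rw [← cu2]; exact aev _

end Pool.Agent.OddFields
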